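import Mathlib

/-!
# A connected set with more than one point has dimension at least one

`con_dim`: if `K` is a set on the sphere which contains a preconnected set with two points, then the
planar part of `K` has Hausdorff dimension at least one. Proof: `z ↦ ‖z - z₀‖` (cut off at `1`) is
continuous on the sphere and takes all values of an interval on the preconnected set.
-/

namespace Pool.Agent.H78.END

open Filter Topology Metric Set

/-- the distance to `z₀`, cut off at `1` -/
noncomputable def hcut (z0 : ℂ) : OnePoint ℂ → ℝ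
  | OnePoint.some z => min ‖z - z0‖ 1
  | OnePoint.infty => 1

theorem hcut_cont (z0 : ℂ) : Continuous (hcut z0) := by
  rw [continuous_iff_continuousAt]
  intro x
  induction x using OnePoint.rec with
  | infty =>
    rw [OnePoint.continuousAt_infty']
    have h1 : ∀ᶠ z : ℂ in coclosedCompact ℂ, (1 : ℝ) = (hcut z0 ∘ ((↑) : ℂ → OnePoint ℂ)) z := by
      rw [coclosedCompact_eq_cocompact]
      have h2 : (closedBall z0 1)ᶜ ∈ cocompact ℂ := (isCompact_closedBall z0 1).compl_mem_cocompact
      filter_upwards [h2] with z hz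
      have h3 : 1 < ‖z - z0‖ := by
        rw [mem_compl_iff, mem_closedBall, dist_eq_norm, not_le] at hz
        exact hz
      show (1 : ℝ) = min ‖z - z0‖ 1
      rw [min_eq_right h3.le]
    exact tendsto_const_nhds.congr' h1
  | coe z =>
    rw [OnePoint.continuousAt_coe]
    have h1 : Continuous (fun z : ℂ => min ‖z - z0‖ 1) := by fun_prop
    exact h1.continuousAt

theorem con_dim {K A : Set (OnePoint ℂ)} (hA : IsPreconnected A) (hAK : A ⊆ K)
    (hnt : A.Nontrivial) : 1 ≤ dimH {z : ℂ | (z : OnePoint ℂ) ∈ K} := by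
  obtain ⟨z0, hz0, x1, hx1, hne⟩ : ∃ z0 : ℂ, (z0 : OnePoint ℂ) ∈ A ∧ ∃ x1 ∈ A, x1 ≠ (z0 : OnePoint ℂ) := by
    obtain ⟨x, hx, y, hy, hxy⟩ := hnt
    induction x using OnePoint.rec with
    | coe z => exact ⟨z, hx, y, hy, fun h => hxy h.symm⟩
    | infty =>
      induction y using OnePoint.rec with
      | coe w => exact ⟨w, hy, _, hx, hxy⟩
      | infty => exact absurd rfl hxy
  have h0 : hcut z0 (z0 : OnePoint ℂ) = 0 := by
    show min ‖z0 - z0‖ 1 = 0
    simp
  have h1 : 0 < hcut z0 x1 := by
    induction x1 using OnePoint.rec with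
    | infty => exact one_pos
    | coe w =>
      have h2 : w ≠ z0 := fun h => hne (by rw [h])
      exact lt_min (norm_pos_iff.2 (sub_ne_zero.2 h2)) one_pos
  have h2 : hcut z0 x1 ≤ 1 := by
    induction x1 using OnePoint.rec with
    | infty => exact le_rfl
    | coe w => exact min_le_right _ _
  have h3 : Ico (0 : ℝ) (hcut z0 x1) ⊆ (fun z : ℂ => ‖z - z0‖) '' {z : ℂ | (z : OnePoint ℂ) ∈ K} := by
    intro t ht
    have h4 := hA.intermediate_value hz0 hx1 (hcut_cont z0).continuousOn
    rw [h0] at h4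
    obtain ⟨x, hx, hxt⟩ := h4 ⟨ht.1, ht.2.le⟩
    have ht1 : t < 1 := lt_of_lt_of_le ht.2 h2
    induction x using OnePoint.rec with
    | infty => exact absurd hxt (ne_of_gt ht1)
    | coe w =>
      refine ⟨w, hAK hx, ?_⟩
      have h5 : min ‖w - z0‖ 1 = t := hxt
      rcases min_choice ‖w - z0‖ 1 with h6 | h6
      · rw [h6] at h5
        exact h5
      · rw [h6] at h5
        exact absurd h5 (ne_of_gt ht1)
  have h4 : LipschitzWith 1 (fun z : ℂ => ‖z - z0‖) := by
    refine LipschitzWith.of_dist_le_mul fun z w => ?_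
    rw [NNReal.coe_one, one_mul, dist_eq_norm, dist_eq_norm, Real.norm_eq_abs]
    have h5 := abs_norm_sub_norm_le (z - z0) (w - z0)
    have e : z - z0 - (w - z0) = z - w := by ring
    rw [e] at h5
    exact h5
  have h5 : dimH (Ico (0 : ℝ) (hcut z0 x1)) = 1 := by
    have h6 : (interior (Ico (0 : ℝ) (hcut z0 x1))).Nonempty := by
      rw [interior_Ico]
      exact nonempty_Ioo.2 h1
    rw [Real.dimH_of_nonempty_interior h6]
    simp
  calc (1 : ENNReal) = dimH (Ico (0 : ℝ) (hcut z0 x1)) := h5.symm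
    _ ≤ dimH ((fun z : ℂ => ‖z - z0‖) '' {z : ℂ | (z : OnePoint ℂ) ∈ K}) := dimH_mono h3
    _ ≤ dimH {z : ℂ | (z : OnePoint ℂ) ∈ K} := h4.dimH_image_le _

end Pool.Agent.H78.END
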